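import Pool.Agent.H91.LF.Defs2

/-!
Module UM of the project LF: the limit mean.
-/

set_option autoImplicit false

open Finset Filter Topology

namespace Pool.Agent.H42.LF

open Pool.Agent.H91.LF
open Pool.Agent.H24.MR (lam)

variable {m : ℕ}

theorem lam_abs (n : ℕ) : |lam n| = 1 := by
  unfold Pool.Agent.H24.MR.lam
  rw [abs_pow]
  simp

theorem lz_abs_le (n : ℤ) : |lz n| ≤ 1 := by
  unfold lz
  split_ifs
  · simp
  · exact le_of_eq (lam_abs _)

theorem gint_bdd (a : ℤ) (b : Fin m → ℤ) (s : ℤ) : Bdd (gint a b s) := by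
  refine ⟨1, fun ω => ?_⟩
  unfold gint
  have h := lz_abs_le
  rw [abs_mul, abs_mul, abs_mul]
  have h1 : ∀ u v : ℤ, |lz u| * |lz v| ≤ 1 := fun u v =>
    mul_le_one₀ (h u) (abs_nonneg _) (h v)
  exact mul_le_one₀ (h1 _ _) (mul_nonneg (abs_nonneg _) (abs_nonneg _)) (h1 _ _)

theorem wt_nonneg (t : Fin m → ℕ) : 0 ≤ wt t := by
  unfold wt
  exact Finset.prod_nonneg fun l _ => by positivity

theorem wt_pos {T : ℕ} (t : Fin m → ℕ) (ht : t ∈ box m T) : 0 < wt t := by
  unfold wt
  refine Finset.prod_pos fun l _ => ?_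
  have h1 : 1 ≤ t l := (Finset.mem_Icc.1 (Fintype.mem_piFinset.1 ht l)).1
  have h2 : (0 : ℝ) < t l := by exact_mod_cast h1
  positivity

theorem avg_add (T x y : ℕ) (f g : (Fin (m + 2) → ℤ) → ℝ) :
    avg m T x y (fun ω => f ω + g ω) = avg m T x y f + avg m T x y g := by
  unfold avg
  rw [← add_div]
  congr 1
  rw [← Finset.sum_add_distrib]
  refine Finset.sum_congr rfl fun t _ => ?_
  rw [← mul_add]
  congr 1
  rw [← Finset.sum_add_distrib]
  refine Finset.sum_congr rfl fun N _ => ?_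
  rw [← mul_add, ← add_div]
  congr 2
  rw [← Finset.sum_add_distrib]
  refine Finset.sum_congr rfl fun n _ => ?_
  rw [← Finset.sum_add_distrib]

theorem avg_smul (T x y : ℕ) (c : ℝ) (f : (Fin (m + 2) → ℤ) → ℝ) :
    avg m T x y (fun ω => c * f ω) = c * avg m T x y f := by
  unfold avg
  rw [← mul_div_assoc]
  congr 1
  rw [Finset.mul_sum]
  refine Finset.sum_congr rfl fun t _ => ?_
  rw [mul_left_comm]
  congr 1
  rw [Finset.mul_sum]
  refine Finset.sum_congr rfl fun N _ => ?_
  rw [mul_left_comm]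
  congr 1
  rw [← mul_div_assoc]
  congr 1
  rw [Finset.mul_sum]
  refine Finset.sum_congr rfl fun n _ => ?_
  rw [Finset.mul_sum]

theorem avg_nonneg (T x y : ℕ) (f : (Fin (m + 2) → ℤ) → ℝ) (hf : ∀ ω, 0 ≤ f ω) :
    0 ≤ avg m T x y f := by
  unfold avg
  refine div_nonneg ?_ ?_
  · refine Finset.sum_nonneg fun t _ => mul_nonneg (wt_nonneg t) ?_
    refine Finset.sum_nonneg fun N _ => mul_nonneg (by positivity) ?_
    refine div_nonneg ?_ (by positivity)
    exact Finset.sum_nonneg fun n _ => Finset.sum_nonneg fun n' _ => hf _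
  · refine mul_nonneg (Finset.sum_nonneg fun t _ => wt_nonneg t) ?_
    exact Finset.sum_nonneg fun N _ => by positivity

theorem avg_one_eq (T x y : ℕ) (hx : 0 < x) :
    avg m T x y (fun _ => 1) =
      ((∑ t ∈ box m T, wt t) * ∑ N ∈ Finset.Icc x y, (1 / (N : ℝ))) /
      ((∑ t ∈ box m T, wt t) * ∑ N ∈ Finset.Icc x y, (1 / (N : ℝ))) := by
  unfold avg
  congr 1
  rw [Finset.sum_mul]
  refine Finset.sum_congr rfl fun t _ => ?_
  congr 1
  refine Finset.sum_congr rfl fun N hN => ?_
  have hN1 : 0 < N := lt_of_lt_of_le hx (Finset.mem_Icc.1 hN).1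
  have hN2 : (N : ℝ) ≠ 0 := by exact_mod_cast hN1.ne'
  simp only [Finset.sum_const, Nat.card_Icc, Nat.add_sub_cancel, nsmul_eq_mul, mul_one]
  field_simp

theorem avg_one_le (T x y : ℕ) (hx : 0 < x) : avg m T x y (fun _ => 1) ≤ 1 := by
  rw [avg_one_eq T x y hx]
  exact div_self_le_one _

theorem avg_mono (T x y : ℕ) (f g : (Fin (m + 2) → ℤ) → ℝ) (h : ∀ ω, f ω ≤ g ω) :
    avg m T x y f ≤ avg m T x y g := by
  have h1 := avg_nonneg T x y (fun ω => g ω + (-1) * f ω) (fun ω => by linarith [h ω])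
  rw [avg_add T x y g (fun ω => (-1) * f ω), avg_smul] at h1
  linarith

theorem avg_abs_le (T x y : ℕ) (hx : 0 < x) (f : (Fin (m + 2) → ℤ) → ℝ) (C : ℝ) (hC : 0 ≤ C)
    (hf : ∀ ω, |f ω| ≤ C) : |avg m T x y f| ≤ C := by
  have h0 : avg m T x y (fun _ => C) ≤ C := by
    have h1 := avg_smul (m := m) T x y C (fun _ => 1)
    simp only [mul_one] at h1
    rw [h1]
    exact mul_le_of_le_one_right hC (avg_one_le T x y hx)
  rw [abs_le]
  constructor
  · have h1 := avg_mono T x y (fun _ => (-1) * C) f (fun ω => by linarith [(abs_le.1 (hf ω)).1])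
    rw [avg_smul T x y (-1) (fun _ => C)] at h1
    linarith
  · exact (avg_mono T x y f (fun _ => C) (fun ω => (abs_le.1 (hf ω)).2)).trans h0

theorem hyp_le : (Filter.hyperfilter ℕ : Filter ℕ) ≤ atTop := by
  rw [← Nat.cofinite_eq_atTop]
  exact Filter.hyperfilter_le_cofinite

/-- Bounded sequences converge along the hyperfilter. -/
theorem exists_lim (u : ℕ → ℝ) (C : ℝ) (hu : ∀ j, |u j| ≤ C) :
    ∃ a, Tendsto u (Filter.hyperfilter ℕ : Filter ℕ) (𝓝 a) := by
  have hK : IsCompact (Set.Icc (-C) C) := isCompact_Icc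
  have h1 : (↑((Filter.hyperfilter ℕ).map u) : Filter ℝ) ≤ 𝓟 (Set.Icc (-C) C) := by
    rw [Filter.le_principal_iff]
    change u ⁻¹' Set.Icc (-C) C ∈ (Filter.hyperfilter ℕ : Filter ℕ)
    refine Filter.mem_of_superset Filter.univ_mem fun j _ => ?_
    exact abs_le.1 (hu j)
  obtain ⟨a, _, ha⟩ := hK.ultrafilter_le_nhds _ h1
  exact ⟨a, ha⟩

theorem um_main (ha : StatementUA) (hb : StatementUB) (hc : StatementUC) : StatementUM := by
  intro m T x y hT hx hr
  classical
  -- the logarithm tends to infinity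
  have hlog : Tendsto (fun j => Real.log ((y j : ℝ) / x j)) atTop atTop := by
    refine tendsto_atTop_mono' atTop ?_ hr
    have h1 : ∀ᶠ j in atTop, 1 ≤ T j := hT.eventually_ge_atTop 1
    have h2 : ∀ᶠ j in atTop, (0 : ℝ) ≤ Real.log ((y j : ℝ) / x j) / (1 + Real.log (T j)) :=
      hr.eventually_ge_atTop 0
    filter_upwards [h1, h2] with j hj1 hj2
    have hl : 0 ≤ Real.log (T j) := Real.log_nonneg (by exact_mod_cast hj1)
    have hl1 : (0 : ℝ) < 1 + Real.log (T j) := by linarith
    have h3 : Real.log ((y j : ℝ) / x j) =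
        (Real.log ((y j : ℝ) / x j) / (1 + Real.log (T j))) * (1 + Real.log (T j)) := by
      field_simp
    calc Real.log ((y j : ℝ) / x j) / (1 + Real.log (T j))
        ≤ (Real.log ((y j : ℝ) / x j) / (1 + Real.log (T j))) * (1 + Real.log (T j)) :=
          le_mul_of_one_le_right hj2 (by linarith)
      _ = Real.log ((y j : ℝ) / x j) := h3.symm
  set F : Filter ℕ := (Filter.hyperfilter ℕ : Filter ℕ) with hF
  have : F.NeBot := by rw [hF]; infer_instance
  have hFle : F ≤ atTop := hyp_le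
  -- the limits
  have hlim : ∀ f : (Fin (m + 2) → ℤ) → ℝ, Bdd f →
      Tendsto (fun j => avg m (T j) (x j) (y j) f) F
        (𝓝 (limUnder F (fun j => avg m (T j) (x j) (y j) f))) := by
    intro f hf
    obtain ⟨C, hC⟩ := hf
    refine tendsto_nhds_limUnder ?_
    have hC0 : 0 ≤ C := (abs_nonneg _).trans (hC 0)
    exact exists_lim _ C fun j => avg_abs_le (T j) (x j) (y j) (hx j) f C hC0 hC
  let E : ((Fin (m + 2) → ℤ) → ℝ) → ℝ := fun f =>
    limUnder F (fun j => avg m (T j) (x j) (y j) f)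
  have hE : ∀ f, Bdd f → Tendsto (fun j => avg m (T j) (x j) (y j) f) F (𝓝 (E f)) := hlim
  have hBadd : ∀ f g : (Fin (m + 2) → ℤ) → ℝ, Bdd f → Bdd g → Bdd (fun ω => f ω + g ω) := by
    rintro f g ⟨C, hC⟩ ⟨D, hD⟩
    exact ⟨C + D, fun ω => (abs_add_le _ _).trans (add_le_add (hC ω) (hD ω))⟩
  have hBsmul : ∀ (c : ℝ) (f : (Fin (m + 2) → ℤ) → ℝ), Bdd f → Bdd (fun ω => c * f ω) := by
    rintro c f ⟨C, hC⟩
    refine ⟨|c| * C, fun ω => ?_⟩
    rw [abs_mul]
    exact mul_le_mul_of_nonneg_left (hC ω) (abs_nonneg _)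
  have hBshift : ∀ (v : Fin (m + 2) → ℤ) (f : (Fin (m + 2) → ℤ) → ℝ), Bdd f →
      Bdd (fun ω => f (ω + v)) := by
    rintro v f ⟨C, hC⟩
    exact ⟨C, fun ω => hC _⟩
  have hBone : Bdd (fun _ : Fin (m + 2) → ℤ => (1 : ℝ)) := ⟨1, fun _ => by simp⟩
  let M : Mean (m + 2) :=
    { E := E
      add := by
        intro f g hf hg
        refine tendsto_nhds_unique (hE _ (hBadd f g hf hg)) ?_
        refine ((hE f hf).add (hE g hg)).congr fun j => ?_
        exact (avg_add _ _ _ f g).symm
      smul := by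
        intro c f hf
        refine tendsto_nhds_unique (hE _ (hBsmul c f hf)) ?_
        refine ((hE f hf).const_mul c).congr fun j => ?_
        exact (avg_smul _ _ _ c f).symm
      nonneg := by
        intro f hf h0
        exact ge_of_tendsto' (hE f hf) fun j => avg_nonneg _ _ _ f h0
      one := by
        refine tendsto_nhds_unique (hE _ hBone) ?_
        refine Tendsto.congr' ?_ tendsto_const_nhds
        have h1 : ∀ᶠ j in atTop, 1 ≤ T j := hT.eventually_ge_atTop 1
        have h2 : ∀ᶠ j in atTop, (1 : ℝ) ≤ Real.log ((y j : ℝ) / x j) :=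
          hlog.eventually_ge_atTop 1
        refine hFle ?_
        filter_upwards [h1, h2] with j hj1 hj2
        rw [avg_one_eq _ _ _ (hx j)]
        symm
        refine div_self ?_
        refine (mul_pos ?_ ?_).ne'
        · refine Finset.sum_pos (fun t ht => wt_pos t ht) ?_
          refine ⟨fun _ => 1, ?_⟩
          refine Fintype.mem_piFinset.2 ?_
          intro l
          rw [Finset.mem_Icc]
          exact ⟨le_refl _, hj1⟩
        · have hxy : x j ≤ y j := by
            by_contra hcon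
            push Not at hcon
            have hx0 : (0 : ℝ) < x j := by exact_mod_cast hx j
            have h3 : ((y j : ℝ) / x j) ≤ 1 := by
              rw [div_le_one hx0]
              exact_mod_cast hcon.le
            have h4 : Real.log ((y j : ℝ) / x j) ≤ 0 :=
              Real.log_nonpos (by positivity) h3
            linarith
          refine Finset.sum_pos (fun N hN => ?_) ⟨x j, Finset.mem_Icc.2 ⟨le_refl _, hxy⟩⟩
          have hN1 : 0 < N := lt_of_lt_of_le (hx j) (Finset.mem_Icc.1 hN).1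
          have hN2 : (0 : ℝ) < N := by exact_mod_cast hN1
          positivity
      shift := by
        intro v f hf
        have h1 := (ha m T x y hT hx hlog v f hf).mono_left hFle
        have h2 := (hE f hf)
        have h3 := h1.add h2
        rw [zero_add] at h3
        refine tendsto_nhds_unique (hE _ (hBshift v f hf)) ?_
        refine h3.congr fun j => ?_
        ring }
  refine ⟨M, ?_, ?_, ?_⟩
  · intro p hp f hf
    have h1 := (hb m T x y hT hx hlog p hp.pos f hf).mono_left hFle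
    have h3 := h1.add (hE f hf)
    rw [zero_add] at h3
    have hB : Bdd (fun ω : Fin (m + 2) → ℤ => (p : ℝ) ^ (m + 2) *
        if ∀ i, (p : ℤ) ∣ ω i then f (fun i => ω i / p) else 0) := by
      obtain ⟨C, hC⟩ := hf
      refine ⟨(p : ℝ) ^ (m + 2) * C, fun ω => ?_⟩
      rw [abs_mul, abs_of_nonneg (by positivity : (0 : ℝ) ≤ (p : ℝ) ^ (m + 2))]
      refine mul_le_mul_of_nonneg_left ?_ (by positivity)
      split_ifs
      · exact hC _
      · rw [abs_zero]
        exact (abs_nonneg _).trans (hC 0)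
    refine tendsto_nhds_unique (hE _ hB) ?_
    refine h3.congr fun j => ?_
    ring
  · intro a b
    obtain ⟨hc1, hc2⟩ := hc m T x y hT hx hr a b
    have hG : ∀ s, Tendsto (fun j => avg m (T j) (x j) (y j) (gint a b s)) F
        (𝓝 (Gam M a b s)) := fun s => hE (gint a b s) (gint_bdd a b s)
    refine ⟨fun s => ?_, fun c η hc0 hη => ?_⟩
    · refine le_of_forall_pos_le_add fun η hη => ?_
      have h1 : -η ≤ Gam M a b s := ge_of_tendsto (hG s) (hFle (hc1 s η hη))
      linarith
    · obtain ⟨H₀, hH₀⟩ := hc2 c η hc0 hη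
      refine ⟨H₀, fun H hH => ?_⟩
      have h1 : Tendsto (fun j => ∑ s ∈ Finset.range H,
          avg m (T j) (x j) (y j) (gint a b (c * s))) F
          (𝓝 (∑ s ∈ Finset.range H, Gam M a b (c * s))) :=
        tendsto_finsetSum _ fun s _ => hG _
      exact le_of_tendsto h1 (hFle (hH₀ H hH))
  · intro f ρ hf hρ
    exact ge_of_tendsto (hE f hf) (hFle hρ)

end Pool.Agent.H42.LF
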