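import Pool.Agent.H28.LF.F2

/-!
Project LF, row CR6: products of intervals with a common end, short intervals with weights.
-/

set_option autoImplicit false

open Filter Topology Finset

namespace Pool.Agent.H42.LF

open Pool.Agent.H28.LF

theorem sqrt_two_le {s d : ℝ} (hs : 0 ≤ s) (hd : 0 < d) :
    Real.sqrt (2 * s) ≤ d + s / (2 * d) := by
  have h0 : 0 ≤ d + s / (2 * d) := by positivity
  rw [Real.sqrt_le_left h0]
  have h1 : (d + s / (2 * d)) ^ 2 = (d - s / (2 * d)) ^ 2 + 2 * s := by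
    field_simp
    ring
  rw [h1]
  nlinarith [sq_nonneg (d - s / (2 * d))]

theorem sum_inv_le (x : ℕ) (hx : 0 < x) : ∀ y : ℕ, x ≤ y →
    ∑ n ∈ Icc x y, (1 : ℝ) / n ≤ 1 / x + Real.log ((y : ℝ) / x) := by
  have hx' : (0 : ℝ) < x := by exact_mod_cast hx
  refine Nat.le_induction ?_ ?_
  · simp
  · intro y hy ih
    rw [Finset.sum_Icc_succ_top (by omega)]
    have hy' : (0 : ℝ) < y := by exact_mod_cast (lt_of_lt_of_le hx hy)
    have hlog : Real.log (((y + 1 : ℕ) : ℝ) / x) =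
        Real.log ((y : ℝ) / x) + Real.log (((y : ℝ) + 1) / y) := by
      rw [← Real.log_mul (by positivity) (by positivity)]
      congr 1
      push_cast
      field_simp
    have h2 : (1 : ℝ) / ((y + 1 : ℕ) : ℝ) ≤ Real.log (((y : ℝ) + 1) / y) := by
      have h3 := Real.one_sub_inv_le_log_of_pos (x := ((y : ℝ) + 1) / y) (by positivity)
      have h4 : 1 - (((y : ℝ) + 1) / y)⁻¹ = 1 / ((y : ℝ) + 1) := by
        field_simp
        ring
      rw [h4] at h3
      push_cast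
      exact h3
    rw [hlog]
    linarith

theorem SB_nonneg (u : Bool × Bool → ℂ) (K n : ℕ) : 0 ≤ SB u K n :=
  Real.iSup_nonneg fun _ => norm_nonneg _

theorem pf_CR6 (hE : T_CRE) : T_CR6 := by
  intro u hu hU ε hε
  obtain ⟨K₁, hK₁, h⟩ := hU (ε ^ 2 / 4) (by positivity)
  refine ⟨max K₁ 3, by positivity, ?_⟩
  intro K x y j w hK hKx hxy hj hw
  have hK1 : K₁ ≤ K := le_trans (le_max_left _ _) hK
  have hK3 : 3 ≤ K := le_trans (le_max_right _ _) hK
  have hx : 0 < x := by omega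
  have hx' : (0 : ℝ) < x := by exact_mod_cast hx
  have hx1 : (1 : ℝ) ≤ x := by exact_mod_cast hx
  have h3x : 3 * x ≤ y := le_trans (Nat.mul_le_mul_right x (le_max_right K₁ 3)) hxy
  have h1x : K₁ * x ≤ y := le_trans (Nat.mul_le_mul_right x (le_max_left K₁ 3)) hxy
  have hxy' : x ≤ y := by omega
  have hS := h (2 * K) x y (by omega) (by omega) h1x
  have hlog : 1 ≤ Real.log ((y : ℝ) / x) := by
    rw [Real.le_log_iff_exp_le (by
      have : (0 : ℝ) < y := by exact_mod_cast (by omega : 0 < y)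
      positivity)]
    have h3 : (3 : ℝ) ≤ (y : ℝ) / x := by
      rw [le_div_iff₀ hx']
      exact_mod_cast h3x
    have := Real.exp_one_lt_d9
    linarith
  have hsum := sum_inv_le x hx y hxy'
  have hinv : (1 : ℝ) / x ≤ 1 := by
    rw [div_le_one hx']
    exact hx1
  have hterm : ∀ n ∈ Icc x y, (1 / (n : ℝ)) * ((∑ k : Fin j → Fin K,
      ‖(∑ h ∈ Icc 1 K, w n h * ∏ i, Fk u ((k i : ℕ) + 1) (n + h)) / K‖) / (K : ℝ) ^ j) ≤
      (ε / 4) * (1 / (n : ℝ)) + (2 / ε) * (SB u (2 * K) n / n) := by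
    intro n _
    have h1 := hE u hu.1 K n j (w n) (by omega) hj (hw n)
    have h2 := sqrt_two_le (SB_nonneg u (2 * K) n) (d := ε / 4) (by positivity)
    have h3 : (0 : ℝ) ≤ 1 / (n : ℝ) := by positivity
    calc (1 / (n : ℝ)) * ((∑ k : Fin j → Fin K,
          ‖(∑ h ∈ Icc 1 K, w n h * ∏ i, Fk u ((k i : ℕ) + 1) (n + h)) / K‖) / (K : ℝ) ^ j)
        ≤ (1 / (n : ℝ)) * (ε / 4 + SB u (2 * K) n / (2 * (ε / 4))) :=
          mul_le_mul_of_nonneg_left (le_trans h1 h2) h3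
      _ = (ε / 4) * (1 / (n : ℝ)) + (2 / ε) * (SB u (2 * K) n / n) := by
          have : ε ≠ 0 := ne_of_gt hε
          field_simp
          ring
  refine le_trans (Finset.sum_le_sum hterm) ?_
  rw [Finset.sum_add_distrib, ← Finset.mul_sum, ← Finset.mul_sum]
  have e1 : (ε / 4) * ∑ n ∈ Icc x y, (1 : ℝ) / n ≤ (ε / 4) * (2 * Real.log ((y : ℝ) / x)) := by
    apply mul_le_mul_of_nonneg_left _ (by positivity)
    linarith
  have e2 : (2 / ε) * ∑ n ∈ Icc x y, SB u (2 * K) n / n ≤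
      (2 / ε) * (ε ^ 2 / 4 * Real.log ((y : ℝ) / x)) :=
    mul_le_mul_of_nonneg_left hS (by positivity)
  have e3 : (2 / ε) * (ε ^ 2 / 4 * Real.log ((y : ℝ) / x)) =
      ε / 2 * Real.log ((y : ℝ) / x) := by
    have : ε ≠ 0 := ne_of_gt hε
    field_simp
    ring
  have e4 : (ε / 4) * (2 * Real.log ((y : ℝ) / x)) = ε / 2 * Real.log ((y : ℝ) / x) := by ring
  rw [e3] at e2
  rw [e4] at e1
  linarith

end Pool.Agent.H42.LF
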